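import Pool.Agent.H90.ODG.KNL

/-!
# Board odg_modules, row KN2
-/

set_option autoImplicit false

namespace Pool.Agent.H90.ODG

open Pool.Agent.H57.CP Pool.Agent.H39.TO Pool.Agent.H39.OD Pool.Agent.H50.ODG

theorem half_eq (k p : ℕ) (hp : 0 < p) (h : (1 : ℚ) / 2 = (k : ℚ) / p) : p = 2 * k := by
  have hp' : (p : ℚ) ≠ 0 := by exact_mod_cast hp.ne'
  rw [div_eq_div_iff two_ne_zero hp'] at h
  have h1 : ((1 * p : ℕ) : ℚ) = ((k * 2 : ℕ) : ℚ) := by
    push_cast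
    exact h
  have h2 : 1 * p = k * 2 := by exact_mod_cast h1
  omega

/-- the conclusion of the row -/
def CC (u v : ℚ) : Prop := (∃ a b : ℕ, 3 ≤ a ∧ 3 ≤ b ∧ u = 1 / a ∧ v = 1 / b) ∨
  ∃ p : ℕ, Odd p ∧ 7 ≤ p ∧ ((u = 1 / p ∧ v = 2 / p) ∨ (u = 2 / p ∧ v = 1 / p))

theorem CC_symm {u v : ℚ} (h : CC u v) : CC v u := by
  rcases h with ⟨a, b, ha, hb, h1, h2⟩ | ⟨p, ho, hp, h | h⟩
  · exact Or.inl ⟨b, a, hb, ha, h2, h1⟩
  · exact Or.inr ⟨p, ho, hp, Or.inr ⟨h.2, h.1⟩⟩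
  · exact Or.inr ⟨p, ho, hp, Or.inl ⟨h.2, h.1⟩⟩

theorem three_le (a b : ℕ) (hb : 2 ≤ b) (ha : 2 ≤ a) (h : (1 : ℚ) / 2 + 1 / a + 1 / b ≤ 1) :
    3 ≤ a := by
  by_contra hcon
  have : a = 2 := by omega
  subst this
  have hb' : (0 : ℚ) < 1 / b := by
    have : (0 : ℚ) < b := by exact_mod_cast (by omega : 0 < b)
    positivity
  push_cast at h
  linarith

theorem one_pos' (c : ℕ) (hc : 2 ≤ c) : (0 : ℚ) < 1 / c := by
  have : (0 : ℚ) < c := by exact_mod_cast (by omega : 0 < c)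
  positivity

theorem caseA {v w : ℚ} (hs : 1 / 2 + v + w ≤ 1) (h : KnO (1 / 2) v w) : CC v w := by
  rcases h with ⟨a, b, c, ha, hb, hc, h1, rfl, rfl⟩ | ⟨p, c, ho, hp, hc, h1, rfl, rfl⟩ |
    ⟨p, ho, hp, h1, rfl, rfl⟩ | ⟨p, ho, hp, h1, rfl, rfl⟩ | ⟨p, ho, hp, h1, rfl, rfl⟩ |
    ⟨p, ho, hp, h1, rfl, rfl⟩ | ⟨h1, rfl, rfl⟩
  · exact Or.inl ⟨b, c, three_le b c hc hb (by linarith), three_le c b hb hc (by linarith),
      rfl, rfl⟩
  · have := half_eq 2 p (by omega) (by push_cast; exact h1)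
    obtain ⟨r, hr⟩ := ho
    omega
  · exact Or.inr ⟨p, ho, hp, Or.inl ⟨rfl, rfl⟩⟩
  · norm_num at h1
  · have := half_eq 4 p (by omega) (by push_cast; exact h1)
    obtain ⟨r, hr⟩ := ho
    omega
  · have := half_eq 2 p (by omega) (by push_cast; exact h1)
    omega
  · norm_num at h1

theorem caseB {u w : ℚ} (hs : 1 / 2 + u + w ≤ 1) (h : KnO u (1 / 2) w) : CC u w := by
  rcases h with ⟨a, b, c, ha, hb, hc, rfl, h1, rfl⟩ | ⟨p, c, ho, hp, hc, rfl, h1, rfl⟩ |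
    ⟨p, ho, hp, rfl, h1, rfl⟩ | ⟨p, ho, hp, rfl, h1, rfl⟩ | ⟨p, ho, hp, rfl, h1, rfl⟩ |
    ⟨p, ho, hp, rfl, h1, rfl⟩ | ⟨rfl, h1, rfl⟩
  · exact Or.inl ⟨a, c, three_le a c hc ha (by linarith), three_le c a ha hc (by linarith),
      rfl, rfl⟩
  · exfalso
    rw [← h1] at hs
    have h2 : (0 : ℚ) < 2 / p := by
      have : (0 : ℚ) < p := by exact_mod_cast (by omega : 0 < p)
      positivity
    linarith
  · have := half_eq 1 p (by omega) (by push_cast; exact h1)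
    omega
  · have := half_eq 1 p (by omega) (by push_cast; exact h1)
    omega
  · have := half_eq 1 p (by omega) (by push_cast; exact h1)
    omega
  · have := half_eq 2 p (by omega) (by push_cast; exact h1)
    omega
  · norm_num at h1

theorem caseC {u v : ℚ} (hs : 1 / 2 + u + v ≤ 1) (h : KnO u v (1 / 2)) : CC u v := by
  rcases h with ⟨a, b, c, ha, hb, hc, rfl, rfl, h1⟩ | ⟨p, c, ho, hp, hc, rfl, rfl, h1⟩ |
    ⟨p, ho, hp, rfl, rfl, h1⟩ | ⟨p, ho, hp, rfl, rfl, h1⟩ | ⟨p, ho, hp, rfl, rfl, h1⟩ |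
    ⟨p, ho, hp, rfl, rfl, h1⟩ | ⟨rfl, rfl, h1⟩
  · exact Or.inl ⟨a, b, three_le a b hb ha (by linarith), three_le b a ha hb (by linarith),
      rfl, rfl⟩
  · exfalso
    rw [← h1] at hs
    have h2 : (0 : ℚ) < 2 / p := by
      have : (0 : ℚ) < p := by exact_mod_cast (by omega : 0 < p)
      positivity
    linarith
  · have := half_eq 2 p (by omega) (by push_cast; exact h1)
    omega
  · have := half_eq 3 p (by omega) (by push_cast; exact h1)
    omega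
  · have := half_eq 1 p (by omega) (by push_cast; exact h1)
    omega
  · have := half_eq 2 p (by omega) (by push_cast; exact h1)
    omega
  · norm_num at h1

theorem pf_KN2 : T_KN2 := by
  intro u v h
  obtain ⟨hs, h⟩ := h
  have key : CC u v := by
    rcases h with h | h | h | h | h | h
    · exact caseC (by linarith) h
    · exact caseB (by linarith) h
    · exact CC_symm (caseC (by linarith) h)
    · exact CC_symm (caseB (by linarith) h)
    · exact caseA (by linarith) h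
    · exact CC_symm (caseA (by linarith) h)
  exact key

end Pool.Agent.H90.ODG
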