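import Pool.Agent.H50.ODG.Targets

/-!
# Board odg_modules, row KNL
-/

set_option autoImplicit false

namespace Pool.Agent.H90.ODG

open Pool.Agent.H57.CP Pool.Agent.H39.TO Pool.Agent.H39.OD Pool.Agent.H50.ODG

/-- the form of the angles -/
def EF (w : ℚ) : Prop := 0 < w ∧ w < 1 ∧ ((∃ n : ℕ, 2 ≤ n ∧ w = 1 / n) ∨
  (∃ p : ℕ, Odd p ∧ 3 ≤ p ∧ w = 2 / p) ∨ (∃ p : ℕ, ¬ 3 ∣ p ∧ 7 ≤ p ∧ w = 3 / p) ∨
  (∃ p : ℕ, Odd p ∧ 7 ≤ p ∧ w = 4 / p))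

theorem frac_mem (k p : ℕ) (hk : 0 < k) (h : k < p) : 0 < (k : ℚ) / p ∧ (k : ℚ) / p < 1 := by
  have hp : (0 : ℚ) < p := by exact_mod_cast (lt_trans hk h)
  have hk' : (0 : ℚ) < k := by exact_mod_cast hk
  refine ⟨div_pos hk' hp, ?_⟩
  rw [div_lt_one hp]
  exact_mod_cast h

theorem EF1 (n : ℕ) (h : 2 ≤ n) : EF (1 / n) := by
  have := frac_mem 1 n one_pos (by omega)
  push_cast at this
  exact ⟨this.1, this.2, Or.inl ⟨n, h, rfl⟩⟩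

theorem EF2 (p : ℕ) (ho : Odd p) (h : 3 ≤ p) : EF (2 / p) := by
  have := frac_mem 2 p two_pos (by omega)
  push_cast at this
  exact ⟨this.1, this.2, Or.inr (Or.inl ⟨p, ho, h, rfl⟩)⟩

theorem EF3 (p : ℕ) (ho : ¬ 3 ∣ p) (h : 7 ≤ p) : EF (3 / p) := by
  have := frac_mem 3 p three_pos (by omega)
  push_cast at this
  exact ⟨this.1, this.2, Or.inr (Or.inr (Or.inl ⟨p, ho, h, rfl⟩))⟩

theorem EF4 (p : ℕ) (ho : Odd p) (h : 7 ≤ p) : EF (4 / p) := by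
  have := frac_mem 4 p four_pos (by omega)
  push_cast at this
  exact ⟨this.1, this.2, Or.inr (Or.inr (Or.inr ⟨p, ho, h, rfl⟩))⟩

theorem KnO_EF {u v w : ℚ} (h : KnO u v w) : EF u ∧ EF v ∧ EF w := by
  have e2 : EF (1 / 2) := by simpa using EF1 2 le_rfl
  have e3 : EF (1 / 3) := by simpa using EF1 3 (by norm_num)
  have e7 : EF (1 / 7) := by simpa using EF1 7 (by norm_num)
  have e27 : EF (2 / 7) := by simpa using EF2 7 (by decide) (by norm_num)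
  rcases h with ⟨a, b, c, ha, hb, hc, rfl, rfl, rfl⟩ | ⟨p, c, ho, hp, hc, rfl, rfl, rfl⟩ |
    ⟨p, ho, hp, rfl, rfl, rfl⟩ | ⟨p, ho, hp, rfl, rfl, rfl⟩ | ⟨p, ho, hp, rfl, rfl, rfl⟩ |
    ⟨p, ho, hp, rfl, rfl, rfl⟩ | ⟨rfl, rfl, rfl⟩
  · exact ⟨EF1 a ha, EF1 b hb, EF1 c hc⟩
  · exact ⟨EF2 p ho hp, EF1 c hc, EF1 c hc⟩
  · exact ⟨e2, EF1 p (by omega), EF2 p ho (by omega)⟩
  · exact ⟨e3, EF1 p (by omega), EF3 p ho hp⟩
  · exact ⟨EF4 p ho hp, EF1 p (by omega), EF1 p (by omega)⟩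
  · exact ⟨EF2 p ho (by omega), EF2 p ho (by omega), EF2 p ho (by omega)⟩
  · exact ⟨e3, e7, e27⟩

theorem pf_KNL : T_KNL := by
  intro u v w h
  have key : EF w := by
    rcases h.2 with h | h | h | h | h | h
    · exact (KnO_EF h).2.2
    · exact (KnO_EF h).2.1
    · exact (KnO_EF h).2.2
    · exact (KnO_EF h).2.1
    · exact (KnO_EF h).1
    · exact (KnO_EF h).1
  exact key

end Pool.Agent.H90.ODG
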