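import Pool.Agent.H90.ODG.KNL

/-!
# Board odg_modules, rows KNT, KN2, KS5
-/

set_option autoImplicit false

namespace Pool.Agent.H90.ODG

open Pool.Agent.H57.CP Pool.Agent.H39.TO Pool.Agent.H39.OD Pool.Agent.H50.ODG

theorem frac_half (k p : ℕ) (h : 2 * k ≤ p) (hp : 0 < p) : (k : ℚ) / p ≤ 1 / 2 := by
  have hp' : (0 : ℚ) < p := by exact_mod_cast hp
  rw [div_le_div_iff₀ hp' two_pos]
  have : ((k * 2 : ℕ) : ℚ) ≤ ((1 * p : ℕ) : ℚ) := by exact_mod_cast (by omega : k * 2 ≤ 1 * p)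
  push_cast at this
  linarith

/-- the entries above `1 / 2` -/
theorem KnO_big {u v w : ℚ} (h : KnO u v w) :
    (u ≤ 1 / 2 ∨ (u = 2 / 3 ∧ v = w) ∨ (u = 4 / 7 ∧ v = 1 / 7 ∧ w = 1 / 7)) ∧
      v ≤ 1 / 2 ∧ w ≤ 1 / 2 := by
  have one : ∀ n : ℕ, 2 ≤ n → (1 : ℚ) / n ≤ 1 / 2 := fun n hn => by
    have := frac_half 1 n (by omega) (by omega)
    push_cast at this
    exact this
  have two : ∀ n : ℕ, 4 ≤ n → (2 : ℚ) / n ≤ 1 / 2 := fun n hn => by
    have := frac_half 2 n (by omega) (by omega)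
    push_cast at this
    exact this
  have three : ∀ n : ℕ, 6 ≤ n → (3 : ℚ) / n ≤ 1 / 2 := fun n hn => by
    have := frac_half 3 n (by omega) (by omega)
    push_cast at this
    exact this
  have four : ∀ n : ℕ, 8 ≤ n → (4 : ℚ) / n ≤ 1 / 2 := fun n hn => by
    have := frac_half 4 n (by omega) (by omega)
    push_cast at this
    exact this
  rcases h with ⟨a, b, c, ha, hb, hc, rfl, rfl, rfl⟩ | ⟨p, c, ho, hp, hc, rfl, rfl, rfl⟩ |
    ⟨p, ho, hp, rfl, rfl, rfl⟩ | ⟨p, ho, hp, rfl, rfl, rfl⟩ | ⟨p, ho, hp, rfl, rfl, rfl⟩ |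
    ⟨p, ho, hp, rfl, rfl, rfl⟩ | ⟨rfl, rfl, rfl⟩
  · exact ⟨Or.inl (one a ha), one b hb, one c hc⟩
  · refine ⟨?_, one c hc, one c hc⟩
    rcases Nat.lt_or_ge p 4 with h | h
    · have hp3 : p = 3 := by omega
      subst hp3
      right
      left
      refine ⟨?_, rfl⟩
      norm_num
    · exact Or.inl (two p h)
  · exact ⟨Or.inl le_rfl, one p (by omega), two p (by omega)⟩
  · exact ⟨Or.inl (by norm_num), one p (by omega), three p (by omega)⟩
  · refine ⟨?_, one p (by omega), one p (by omega)⟩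
    rcases Nat.lt_or_ge p 8 with h | h
    · have hp3 : p = 7 := by omega
      subst hp3
      right
      right
      refine ⟨?_, ?_, ?_⟩ <;> norm_num
    · exact Or.inl (four p h)
  · exact ⟨Or.inl (two p (by omega)), two p (by omega), two p (by omega)⟩
  · refine ⟨Or.inl ?_, ?_, ?_⟩ <;> norm_num

theorem pf_KNT : T_KNT := by
  intro u v h
  obtain ⟨hs, h⟩ := h
  rcases h with h | h | h | h | h | h
  · rcases (KnO_big h).1 with h1 | ⟨h1, h2⟩ | ⟨h1, h2, h3⟩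
    · exact h1
    · rw [h1, h2] at hs
      norm_num at hs
    · norm_num at h3
  · rcases (KnO_big h).1 with h1 | ⟨h1, h2⟩ | ⟨h1, h2, h3⟩
    · exact h1
    · rw [h1, ← h2] at hs
      norm_num at hs
    · norm_num at h2
  · exact (KnO_big h).2.1
  · exact (KnO_big h).2.2
  · exact (KnO_big h).2.1
  · exact (KnO_big h).2.2

end Pool.Agent.H90.ODG
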