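import Pool.Agent.H50.ODG.Targets

/-!
# Board odg_modules, row KS5
-/

set_option autoImplicit false

namespace Pool.Agent.H90.ODG

open Pool.Agent.H57.CP Pool.Agent.H39.TO Pool.Agent.H39.OD Pool.Agent.H50.ODG

theorem q_eq (m q : ℕ) (hq : 0 < q) (hm : 0 < m) (h : (1 : ℚ) / q = 1 / (m : ℚ)) : q = m := by
  have hq' : (q : ℚ) ≠ 0 := by exact_mod_cast hq.ne'
  have hm' : (m : ℚ) ≠ 0 := by exact_mod_cast hm.ne'
  rw [div_eq_div_iff hq' hm'] at h
  have h1 : (m : ℚ) = q := by linarith
  exact_mod_cast h1.symm

theorem pf_KS5 (hKN7 : T_KN7) (hKNS : T_KNS) (hKNL : T_KNL) : T_KS5 := by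
  obtain ⟨h4, h3⟩ := hKN7
  constructor
  · intro q k u v hk hkq hc hK1 hK2 hs _
    obtain ⟨e1, rfl⟩ := h4 _ _ hK1
    have hq : q = 7 := q_eq 7 q (by omega) (by norm_num) (by rw [e1]; norm_num)
    subst hq
    have e : (1 : ℚ) - 4 / 7 = 3 / 7 := by norm_num
    rw [e] at hK2
    rcases h3 _ _ hK2 with ⟨h, -⟩ | ⟨h, rfl⟩
    · exfalso
      have h1 : (3 : ℚ) * k = 10 := by
        push_cast at h
        linarith
      have h2 : 3 * k = 10 := by exact_mod_cast h1
      omega
    · have h1 : (k : ℚ) = 2 := by
        push_cast at h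
        linarith
      have h2 : k = 2 := by exact_mod_cast h1
      subst h2
      refine ⟨by norm_num, ?_⟩
      right
      right
      right
      right
      right
      unfold KnO
      right
      right
      right
      right
      right
      right
      refine ⟨rfl, rfl, ?_⟩
      norm_num
  · intro q k u v hk hkq hc hK1 hK2 hs _
    have e : (1 : ℚ) - 3 / 7 = 4 / 7 := by norm_num
    rw [e] at hK2
    obtain ⟨e1, rfl⟩ := h4 _ _ hK2
    rcases h3 _ _ hK1 with ⟨h, rfl⟩ | ⟨h, rfl⟩
    · exfalso
      have hq : q = 3 := q_eq 3 q (by omega) (by norm_num) (by rw [h]; norm_num)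
      subst hq
      have h1 : (7 : ℚ) * k = 10 := by
        push_cast at e1
        linarith
      have h2 : 7 * k = 10 := by exact_mod_cast h1
      omega
    · have hq : q = 7 := q_eq 7 q (by omega) (by norm_num) (by rw [h]; norm_num)
      subst hq
      have h1 : (k : ℚ) = 2 := by
        push_cast at e1
        linarith
      have h2 : k = 2 := by exact_mod_cast h1
      subst h2
      refine ⟨by norm_num, ?_⟩
      right
      right
      right
      left
      unfold KnO
      right
      right
      right
      right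
      right
      right
      refine ⟨rfl, rfl, ?_⟩
      norm_num

end Pool.Agent.H90.ODG
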